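import Pool.Agent.T2h96.FC.Stm

/-!
# Task UNB, part 1: lengths of the iterates, block positions
-/

set_option autoImplicit false
set_option linter.all false

open Filter

namespace Pool.Agent.T2h96.FC.UNB

variable {k : ℕ} (σ : Fin k → List (Fin k))

/-- the morphism on words -/
def ext (w : List (Fin k)) : List (Fin k) := w.flatMap σ

/-- the length of `σ ^ j b` -/
def L (j : ℕ) (b : Fin k) : ℕ := ((ext σ)^[j] [b]).length

theorem ext_append (v w : List (Fin k)) : ext σ (v ++ w) = ext σ v ++ ext σ w :=
  List.flatMap_append

theorem iter_append (j : ℕ) (v w : List (Fin k)) :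
    (ext σ)^[j] (v ++ w) = (ext σ)^[j] v ++ (ext σ)^[j] w := by
  induction j generalizing v w with
  | zero => rfl
  | succ j ih => rw [Function.iterate_succ_apply, ext_append, ih]; rfl

theorem iter_nil (j : ℕ) : (ext σ)^[j] [] = [] := by
  induction j with
  | zero => rfl
  | succ j ih => rw [Function.iterate_succ_apply]; exact ih

theorem length_iter (j : ℕ) (w : List (Fin k)) :
    ((ext σ)^[j] w).length = (w.map (L σ j)).sum := by
  induction w with
  | nil => rw [iter_nil]; rfl
  | cons b w ih =>
    have h : b :: w = [b] ++ w := rfl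
    rw [h, iter_append, List.length_append, ih]
    rfl

theorem L_zero (b : Fin k) : L σ 0 b = 1 := rfl

theorem L_succ (j : ℕ) (b : Fin k) : L σ (j + 1) b = ((σ b).map (L σ j)).sum := by
  rw [← length_iter]
  unfold L
  rw [Function.iterate_succ_apply]
  congr 2
  simp [ext]

theorem L_one (b : Fin k) : L σ 1 b = (σ b).length := by
  rw [L_succ]
  have : L σ 0 = fun _ => 1 := by ext b; rfl
  rw [this]
  simp

theorem L_pos (hne : ∀ b, σ b ≠ []) (j : ℕ) (b : Fin k) : 0 < L σ j b := by
  induction j generalizing b with
  | zero => exact Nat.one_pos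
  | succ j ih =>
    rw [L_succ]
    obtain ⟨d, w, hw⟩ := List.exists_cons_of_ne_nil (hne b)
    rw [hw, List.map_cons, List.sum_cons]
    exact Nat.add_pos_left (ih d) _

theorem L_le_of_mem {b d : Fin k} (h : d ∈ σ b) (j : ℕ) : L σ j d ≤ L σ (j + 1) b := by
  rw [L_succ]
  exact List.le_sum_of_mem (List.mem_map_of_mem h)

theorem L_le_mul {m : ℕ} (hm : ∀ b, (σ b).length ≤ m) (j : ℕ) (b : Fin k) :
    L σ (j + 1) b ≤ m * L σ j b := by
  unfold L
  rw [Function.iterate_succ_apply']
  show (List.flatMap σ ((ext σ)^[j] [b])).length ≤ _
  rw [List.length_flatMap]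
  have h : ∀ w : List (Fin k), (w.map fun a => (σ a).length).sum ≤ m * w.length := by
    intro w
    induction w with
    | nil => simp
    | cons c w ih =>
      rw [List.map_cons, List.sum_cons, List.length_cons, Nat.mul_succ]
      have := hm c
      omega
  exact h _

theorem L_le_succ (hne : ∀ b, σ b ≠ []) (j : ℕ) (b : Fin k) : L σ j b ≤ L σ (j + 1) b := by
  unfold L
  rw [Function.iterate_succ_apply']
  show _ ≤ (List.flatMap σ ((ext σ)^[j] [b])).length
  rw [List.length_flatMap]
  have h : ∀ w : List (Fin k), w.length ≤ (w.map fun a => (σ a).length).sum := by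
    intro w
    induction w with
    | nil => simp
    | cons c w ih =>
      rw [List.map_cons, List.sum_cons, List.length_cons]
      have := List.length_pos_of_ne_nil (hne c)
      omega
  exact h _

theorem L_mono (hne : ∀ b, σ b ≠ []) (b : Fin k) : Monotone fun j => L σ j b :=
  monotone_nat_of_le_succ fun j => L_le_succ σ hne j b

/-- everywhere growing morphisms are not erasing -/
theorem ne_nil (hg : ∀ b, Tendsto (fun m => L σ m b) atTop atTop) (b : Fin k) : σ b ≠ [] := by
  intro h
  obtain ⟨m, hm1, hm⟩ := ((tendsto_atTop.1 (hg b) 1).and (eventually_ge_atTop 1)).exists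
  obtain ⟨j, rfl⟩ : ∃ j, m = j + 1 := ⟨m - 1, by omega⟩
  rw [L_succ, h] at hm1
  simp at hm1

section word
variable (u : ℕ → Fin k)

/-- the position of the image of `u i` -/
def dd (i : ℕ) : ℕ := ∑ r ∈ Finset.range i, (σ (u r)).length

theorem dd_succ (i : ℕ) : dd σ u (i + 1) = dd σ u i + (σ (u i)).length :=
  Finset.sum_range_succ _ _

theorem dd_zero : dd σ u 0 = 0 := rfl

theorem length_flatMap_range (i : ℕ) : (ext σ ((List.range i).map u)).length = dd σ u i := by
  induction i with
  | zero => rfl
  | succ i ih =>
    rw [List.range_succ, List.map_append, ext_append, List.length_append, ih, dd_succ]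
    simp [ext]

variable {σ u}

/-- the structure of the fixed point -/
theorem str {a : Fin k} (hg : ∀ b, Tendsto (fun m => L σ m b) atTop atTop)
    (hu : ∀ m i : ℕ, i < ((ext σ)^[m] [a]).length → ((ext σ)^[m] [a])[i]? = some (u i))
    (i t : ℕ) (ht : t < (σ (u i)).length) : (σ (u i))[t]? = some (u (dd σ u i + t)) := by
  obtain ⟨m, hm⟩ := (tendsto_atTop.1 (hg a) (i + 1)).exists
  have hW : ∀ m, (ext σ)^[m] [a] = (List.range ((ext σ)^[m] [a]).length).map u := by
    intro m
    apply List.ext_getElem?
    intro r
    by_cases hr : r < ((ext σ)^[m] [a]).length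
    · rw [hu m r hr, List.getElem?_map, List.getElem?_range hr]
      rfl
    · rw [List.getElem?_eq_none (by omega), List.getElem?_eq_none (by simp; omega)]
  set N := ((ext σ)^[m] [a]).length with hN
  have hiN : i < N := hm
  obtain ⟨q, hq⟩ : ∃ q, N = i + (1 + q) := ⟨N - i - 1, by omega⟩
  have h1 : (ext σ)^[m + 1] [a] = ext σ ((List.range i).map u) ++
      (σ (u i) ++ ext σ ((List.range q).map fun r => u (i + (1 + r)))) := by
    rw [Function.iterate_succ_apply', hW m, ← hN, hq, List.range_add, List.map_append, ext_append]
    congr 1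
    rw [List.range_add, List.map_append, List.map_append, ext_append]
    congr 1
    · simp [ext]
    · simp [List.map_map, Function.comp_def]
  have hlen : dd σ u i + t < ((ext σ)^[m + 1] [a]).length := by
    rw [h1, List.length_append, length_flatMap_range, List.length_append]
    omega
  have h2 := hu (m + 1) (dd σ u i + t) hlen
  rw [h1, List.getElem?_append_right (by rw [length_flatMap_range]; omega),
    length_flatMap_range, Nat.add_sub_cancel_left, List.getElem?_append_left ht] at h2
  exact h2

/-- the block structure -/
theorem blk (hstr : ∀ i t : ℕ, t < (σ (u i)).length → (σ (u i))[t]? = some (u (dd σ u i + t)))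
    (j i : ℕ) : (dd σ u)^[j] (i + 1) = (dd σ u)^[j] i + L σ j (u i) := by
  induction j generalizing i with
  | zero => rfl
  | succ j ih =>
    have h1 : ∀ i n, (dd σ u)^[j] (i + n) =
        (dd σ u)^[j] i + ∑ t ∈ Finset.range n, L σ j (u (i + t)) := by
      intro i n
      induction n with
      | zero => simp
      | succ n ihn => rw [Finset.sum_range_succ, ← add_assoc, ih, ihn]; ring
    rw [Function.iterate_succ_apply, dd_succ, h1, Function.iterate_succ_apply, L_succ]
    congr 1
    have h2 : (σ (u i)).map (L σ j) =
        (List.range (σ (u i)).length).map fun t => L σ j (u (dd σ u i + t)) := by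
      apply List.ext_getElem?
      intro r
      by_cases hr : r < (σ (u i)).length
      · rw [List.getElem?_map, hstr i r hr, List.getElem?_map, List.getElem?_range hr]
        rfl
      · rw [List.getElem?_eq_none (by simp; omega), List.getElem?_eq_none (by simp; omega)]
    have h3 : ∀ (n : ℕ) (f : ℕ → ℕ), ∑ t ∈ Finset.range n, f t = ((List.range n).map f).sum := by
      intro n f
      induction n with
      | zero => rfl
      | succ n ihn =>
        rw [Finset.sum_range_succ, List.range_succ, List.map_append, List.sum_append, ihn]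
        simp
    rw [h2, h3]

end word

end Pool.Agent.T2h96.FC.UNB
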