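import Pool.Agent.T2h96.FC.Stm

/-!
# Task UNB, part 2: the gaps between the fast letters
-/

set_option autoImplicit false
set_option linter.all false

open Filter

namespace Pool.Agent.T2h96.FC.UNB

theorem exists_first (P : ℕ → Prop) {p q : ℕ} (h : ∃ x, p ≤ x ∧ x < q ∧ P x) :
    ∃ y, p ≤ y ∧ y < q ∧ P y ∧ ∀ z, p ≤ z → z < y → ¬ P z := by
  classical
  refine ⟨Nat.find h, (Nat.find_spec h).1, (Nat.find_spec h).2.1, (Nat.find_spec h).2.2, ?_⟩
  intro z hz1 hz2 hz3
  exact Nat.find_min h hz2 ⟨hz1, hz2.trans (Nat.find_spec h).2.1, hz3⟩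

theorem exists_last (P : ℕ → Prop) {p q : ℕ} (h : ∃ x, p ≤ x ∧ x < q ∧ P x) :
    ∃ y, p ≤ y ∧ y < q ∧ P y ∧ ∀ z, y < z → z < q → ¬ P z := by
  induction q with
  | zero => obtain ⟨x, _, h, _⟩ := h; omega
  | succ q ih =>
    by_cases hq : P q
    · obtain ⟨x, h1, h2, _⟩ := h
      exact ⟨q, by omega, by omega, hq, fun z h3 h4 => by omega⟩
    · obtain ⟨x, h1, h2, h3⟩ := h
      have hx : x ≠ q := by rintro rfl; exact hq h3
      obtain ⟨y, h4, h5, h6, h7⟩ := ih ⟨x, h1, by omega, h3⟩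
      refine ⟨y, h4, by omega, h6, fun z h8 h9 => ?_⟩
      rcases Nat.lt_or_ge z q with h10 | h10
      · exact h7 z h8 h10
      · have : z = q := by omega
        rw [this]; exact hq

/-- positions, fast letters (`F`), bounds -/
structure Sys {A : Type} (u : ℕ → A) (F : A → Prop) (d : ℕ → ℕ) (m : ℕ) (s : ℕ → ℕ) : Prop where
  d0 : d 0 = 0
  dm : StrictMono d
  hm : ∀ i, d (i + 1) ≤ d i + m
  hS : ∀ i, ¬ F (u i) → ∀ x, d i ≤ x → x < d (i + 1) → ¬ F (u x)
  hF : ∀ i, F (u i) → ∃ x, d i ≤ x ∧ x < d (i + 1) ∧ F (u x)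
  hs : ∀ j i, ¬ F (u i) → d^[j] (i + 1) ≤ d^[j] i + s j

/-- `x` and `y` are consecutive fast positions -/
def Gap {A : Type} (u : ℕ → A) (F : A → Prop) (x y : ℕ) : Prop :=
  x < y ∧ F (u x) ∧ F (u y) ∧ ∀ z, x < z → z < y → ¬ F (u z)

/-- the bound for the ends of the blocks -/
def lam (m : ℕ) (s : ℕ → ℕ) (j : ℕ) : ℕ := ∑ i ∈ Finset.range j, m * s i

theorem lam_succ (m : ℕ) (s : ℕ → ℕ) (j : ℕ) : lam m s (j + 1) = lam m s j + m * s j :=
  Finset.sum_range_succ _ _

namespace Sys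

variable {A : Type} {u : ℕ → A} {F : A → Prop} {d : ℕ → ℕ} {m : ℕ} {s : ℕ → ℕ}

theorem Dm (h : Sys u F d m s) (j : ℕ) : StrictMono (d^[j]) := h.dm.iterate j

theorem D0 (h : Sys u F d m s) (j : ℕ) : d^[j] 0 = 0 := by
  induction j with
  | zero => rfl
  | succ j ih => rw [Function.iterate_succ_apply, h.d0, ih]

theorem anc (h : Sys u F d m s) (j x : ℕ) : ∃ r, d^[j] r ≤ x ∧ x < d^[j] (r + 1) := by
  induction x with
  | zero => exact ⟨0, by rw [h.D0], by
      have := h.Dm j (Nat.lt_succ_self 0)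
      rw [h.D0] at this
      exact this⟩
  | succ x ih =>
    obtain ⟨r, h1, h2⟩ := ih
    rcases Nat.lt_or_ge (x + 1) (d^[j] (r + 1)) with h3 | h3
    · exact ⟨r, by omega, h3⟩
    · refine ⟨r + 1, h3, ?_⟩
      have := h.Dm j (Nat.lt_succ_self (r + 1))
      show x + 1 < d^[j] (r + 1 + 1)
      have h4 : d^[j] (r + 1) < d^[j] (r + 1 + 1) := this
      omega

theorem slow_blk (h : Sys u F d m s) (j : ℕ) : ∀ i, ¬ F (u i) → ∀ x, d^[j] i ≤ x →
    x < d^[j] (i + 1) → ¬ F (u x) := by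
  induction j with
  | zero =>
    intro i hi x h1 h2
    have h1' : i ≤ x := h1
    have h2' : x < i + 1 := h2
    have : x = i := by omega
    rw [this]; exact hi
  | succ j ih =>
    intro i hi x h1 h2
    rw [Function.iterate_succ_apply] at h1 h2
    obtain ⟨r, h3, h4⟩ := h.anc j x
    have h5 : d i < r + 1 := (h.Dm j).lt_iff_lt.1 (lt_of_le_of_lt h1 h4)
    have h6 : r < d (i + 1) := (h.Dm j).lt_iff_lt.1 (lt_of_le_of_lt h3 h2)
    exact ih r (h.hS i hi r (by omega) h6) x h3 h4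

theorem slow_sum (h : Sys u F d m s) (j : ℕ) {p q : ℕ} (hpq : p ≤ q)
    (hz : ∀ z, p ≤ z → z < q → ¬ F (u z)) : d^[j] q ≤ d^[j] p + (q - p) * s j := by
  induction q, hpq using Nat.le_induction with
  | base => omega
  | succ q hq ih =>
    have h1 := ih fun z h1 h2 => hz z h1 (by omega)
    have h2 := h.hs j q (hz q hq (by omega))
    have h3 : q + 1 - p = (q - p) + 1 := by omega
    rw [h3, Nat.succ_mul]
    omega

theorem first (h : Sys u F d m s) (j : ℕ) : ∀ i, F (u i) → ∃ y, d^[j] i ≤ y ∧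
    y < d^[j] (i + 1) ∧ F (u y) ∧ y ≤ d^[j] i + lam m s j := by
  induction j with
  | zero => intro i hi; exact ⟨i, le_rfl, Nat.lt_succ_self i, hi, Nat.le_add_right _ _⟩
  | succ j ih =>
    intro i hi
    obtain ⟨y₁, h1, h2, h3, h4⟩ := exists_first _ (h.hF i hi)
    obtain ⟨y, h5, h6, h7, h8⟩ := ih y₁ h3
    have h9 := h.slow_sum j h1 fun z h10 h11 => h4 z h10 h11
    have h10 : (y₁ - d i) * s j ≤ m * s j := by
      apply Nat.mul_le_mul_right
      have := h.hm i
      omega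
    have h11 : d^[j] (y₁ + 1) ≤ d^[j] (d (i + 1)) := (h.Dm j).monotone (by omega)
    have h12 : d^[j] (d i) ≤ d^[j] y₁ := (h.Dm j).monotone h1
    rw [Function.iterate_succ_apply, Function.iterate_succ_apply, lam_succ]
    exact ⟨y, by omega, by omega, h7, by omega⟩

theorem last (h : Sys u F d m s) (j : ℕ) : ∀ i, F (u i) → ∃ x, d^[j] i ≤ x ∧
    x < d^[j] (i + 1) ∧ F (u x) ∧ d^[j] (i + 1) ≤ x + 1 + lam m s j := by
  induction j with
  | zero =>
    intro i hi
    refine ⟨i, le_rfl, Nat.lt_succ_self i, hi, ?_⟩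
    show i + 1 ≤ i + 1 + _
    omega
  | succ j ih =>
    intro i hi
    obtain ⟨y₁, h1, h2, h3, h4⟩ := exists_last _ (h.hF i hi)
    obtain ⟨y, h5, h6, h7, h8⟩ := ih y₁ h3
    have h9 := h.slow_sum j (p := y₁ + 1) (q := d (i + 1)) (by omega)
      fun z h10 h11 => h4 z (by omega) h11
    have h10 : (d (i + 1) - (y₁ + 1)) * s j ≤ m * s j := by
      apply Nat.mul_le_mul_right
      have := h.hm i
      omega
    have h11 : d^[j] (y₁ + 1) ≤ d^[j] (d (i + 1)) := (h.Dm j).monotone (by omega)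
    have h12 : d^[j] (d i) ≤ d^[j] y₁ := (h.Dm j).monotone h1
    rw [Function.iterate_succ_apply, Function.iterate_succ_apply, lam_succ]
    exact ⟨y, by omega, by omega, h7, by omega⟩

/-- the ancestors of a gap -/
theorem gap_anc (h : Sys u F d m s) (j : ℕ) {x y : ℕ} (hg : Gap u F x y) : ∃ r r', F (u r) ∧
    F (u r') ∧ d^[j] r ≤ x ∧ x < d^[j] (r + 1) ∧ d^[j] r' ≤ y ∧ y < d^[j] (r' + 1) ∧
    (r = r' ∨ (Gap u F r r' ∧ d^[j] (r + 1) ≤ x + 1 + lam m s j ∧ y ≤ d^[j] r' + lam m s j)) := by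
  obtain ⟨hxy, hx, hy, hz⟩ := hg
  obtain ⟨r, h1, h2⟩ := h.anc j x
  obtain ⟨r', h3, h4⟩ := h.anc j y
  have hr : F (u r) := by
    by_contra hc
    exact h.slow_blk j r hc x h1 h2 hx
  have hr' : F (u r') := by
    by_contra hc
    exact h.slow_blk j r' hc y h3 h4 hy
  refine ⟨r, r', hr, hr', h1, h2, h3, h4, ?_⟩
  have h5 : r < r' + 1 := (h.Dm j).lt_iff_lt.1 (by omega)
  rcases Nat.eq_or_lt_of_le (show r ≤ r' by omega) with h6 | h6
  · left; exact h6
  right
  have h7 : d^[j] (r + 1) ≤ d^[j] r' := (h.Dm j).monotone h6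
  refine ⟨⟨h6, hr, hr', ?_⟩, ?_, ?_⟩
  · intro z hz1 hz2 hz3
    obtain ⟨y₀, h8, h9, h10, _⟩ := h.first j z hz3
    have h11 : d^[j] (r + 1) ≤ d^[j] z := (h.Dm j).monotone hz1
    have h12 : d^[j] (z + 1) ≤ d^[j] r' := (h.Dm j).monotone hz2
    exact hz y₀ (by omega) (by omega) h10
  · obtain ⟨x₀, h8, h9, h10, h11⟩ := h.last j r hr
    have h12 : x₀ ≤ x := by
      by_contra hc
      exact hz x₀ (by omega) (by omega) h10
    omega
  · obtain ⟨y₀, h8, h9, h10, h11⟩ := h.first j r' hr'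
    have h12 : y ≤ y₀ := by
      by_contra hc
      exact hz y₀ (by omega) (by omega) h10
    omega

/-- the gaps inside a block are short -/
theorem inner (h : Sys u F d m s) (j : ℕ) : ∀ i, F (u i) → ∀ x y, Gap u F x y → d^[j] i ≤ x →
    y < d^[j] (i + 1) → y ≤ x + 1 + 2 * lam m s j := by
  induction j with
  | zero =>
    intro i hi x y hg h1 h2
    have h1' : i ≤ x := h1
    have h2' : y < i + 1 := h2
    have := hg.1
    omega
  | succ j ih =>
    intro i hi x y hg h1 h2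
    rw [Function.iterate_succ_apply] at h1 h2
    obtain ⟨r, r', hr, hr', h3, h4, h5, h6, h7⟩ := h.gap_anc j hg
    rw [lam_succ]
    rcases h7 with rfl | ⟨h7, h8, h9⟩
    · have := ih r hr x y hg h3 h6
      omega
    · have h10 := h.slow_sum j (p := r + 1) (q := r') h7.1 fun z h10 h11 =>
        h7.2.2.2 z (by omega) h11
      have h11 : d i < r + 1 := (h.Dm j).lt_iff_lt.1 (lt_of_le_of_lt h1 h4)
      have h12 : r' < d (i + 1) := (h.Dm j).lt_iff_lt.1 (lt_of_le_of_lt h5 h2)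
      have h13 : (r' - (r + 1)) * s j ≤ m * s j := by
        apply Nat.mul_le_mul_right
        have := h.hm i
        omega
      omega

/-- long gaps are far apart -/
theorem sep (h : Sys u F d m s) {j n : ℕ}
    (hn : ∀ i, F (u i) → d^[j] i + (n + 2 * lam m s j) ≤ d^[j] (i + 1)) {x y x' y' : ℕ}
    (hg : Gap u F x y) (hg' : Gap u F x' y') (hl : 2 * lam m s j < y - x - 1)
    (hl' : 2 * lam m s j < y' - x' - 1) (hy : y ≤ x') : n ≤ y' - x := by
  obtain ⟨r, r', hr, hr', h3, h4, h5, h6, h7⟩ := h.gap_anc j hg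
  obtain ⟨q, q', hq, hq', k3, k4, k5, k6, k7⟩ := h.gap_anc j hg'
  rcases h7 with rfl | ⟨h7, h8, h9⟩
  · exfalso
    have := h.inner j r hr x y hg h3 h6
    omega
  rcases k7 with rfl | ⟨k7, k8, k9⟩
  · exfalso
    have := h.inner j q hq x' y' hg' k3 k6
    omega
  have h10 : r' < q + 1 := (h.Dm j).lt_iff_lt.1 (by omega)
  have h11 : d^[j] (r' + 1) ≤ d^[j] (q + 1) := (h.Dm j).monotone (by omega)
  have h12 := hn r' hr'
  have := hg.1
  have := hg'.1
  omega

/-- the next gap -/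
theorem next (h : Sys u F d m s) {x y : ℕ} (hg : Gap u F x y) : ∃ x' y', Gap u F x' y' ∧
    d x ≤ x' ∧ x' < d (x + 1) ∧ d y ≤ y' ∧ y' < d (y + 1) := by
  obtain ⟨hxy, hx, hy, hz⟩ := hg
  obtain ⟨x', h1, h2, h3, h4⟩ := exists_last _ (h.hF x hx)
  obtain ⟨y', h5, h6, h7, h8⟩ := exists_first _ (h.hF y hy)
  have h9 : d (x + 1) ≤ d y := h.dm.monotone hxy
  refine ⟨x', y', ⟨by omega, h3, h7, ?_⟩, h1, h2, h5, h6⟩
  intro z hz1 hz2
  by_cases hz3 : z < d (x + 1)
  · exact h4 z hz1 hz3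
  by_cases hz4 : d y ≤ z
  · exact h8 z hz4 hz2
  obtain ⟨r, h10, h11⟩ := h.anc 1 z
  have h10' : d r ≤ z := h10
  have h11' : z < d (r + 1) := h11
  have h12 : x + 1 < r + 1 := h.dm.lt_iff_lt.1 (by omega)
  have h13 : r < y := h.dm.lt_iff_lt.1 (by omega)
  exact h.hS r (hz r (by omega) h13) z h10' h11'

/-- the sequence of gaps -/
theorem seq (h : Sys u F d m s) {p q : ℕ} (hg : Gap u F p q) : ∃ X Y : ℕ → ℕ, X 0 = p ∧ Y 0 = q ∧
    (∀ i, Gap u F (X i) (Y i)) ∧ (∀ i, d (X i) ≤ X (i + 1) ∧ X (i + 1) < d (X i + 1)) ∧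
    ∀ i, d (Y i) ≤ Y (i + 1) ∧ Y (i + 1) < d (Y i + 1) := by
  classical
  have hex : ∀ g : {g : ℕ × ℕ // Gap u F g.1 g.2}, ∃ g' : {g : ℕ × ℕ // Gap u F g.1 g.2},
      (d g.1.1 ≤ g'.1.1 ∧ g'.1.1 < d (g.1.1 + 1)) ∧ (d g.1.2 ≤ g'.1.2 ∧ g'.1.2 < d (g.1.2 + 1)) := by
    rintro ⟨⟨x, y⟩, hxy⟩
    obtain ⟨x', y', h1, h2, h3, h4, h5⟩ := h.next hxy
    exact ⟨⟨(x', y'), h1⟩, ⟨h2, h3⟩, h4, h5⟩
  choose N hN using hex
  let G : ℕ → {g : ℕ × ℕ // Gap u F g.1 g.2} := fun i => N^[i] ⟨(p, q), hg⟩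
  have hG : ∀ i, G (i + 1) = N (G i) := fun i => Function.iterate_succ_apply' N i _
  refine ⟨fun i => (G i).1.1, fun i => (G i).1.2, rfl, rfl, fun i => (G i).2, fun i => ?_,
    fun i => ?_⟩
  · show _ ≤ (G (i + 1)).1.1 ∧ (G (i + 1)).1.1 < _
    rw [hG]; exact (hN (G i)).1
  · show _ ≤ (G (i + 1)).1.2 ∧ (G (i + 1)).1.2 < _
    rw [hG]; exact (hN (G i)).2

end Sys

/-- counting the windows -/
theorem count {A : Type} [Finite A] (u : ℕ → A) (F : A → Prop) {n Λ K : ℕ}
    (h1 : ∀ x y x' y', Gap u F x y → Gap u F x' y' → Λ < y - x - 1 → Λ < y' - x' - 1 → y ≤ x' →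
      n ≤ y' - x) (X Y : Fin K → ℕ) (hg : ∀ i, Gap u F (X i) (Y i))
    (hl : ∀ i, Λ < Y i - X i - 1) (hn : ∀ i, 2 * (Y i - X i - 1) ≤ n) (hY : ∀ i, n ≤ Y i)
    (hinj : ∀ i i', Y i - X i = Y i' - X i' → i = i') : K * (n / 2 - 1) ≤ pc u n := by
  classical
  unfold pc
  have hfin : (Set.range (fun i : ℕ => List.ofFn (fun j : Fin n => u (i + j.val)))).Finite := by
    have h2 : (Set.range (fun f : Fin n → A => List.ofFn f)).Finite := Set.finite_range _
    refine h2.subset ?_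
    rintro _ ⟨i, rfl⟩
    exact ⟨_, rfl⟩
  let φ : Fin K × Fin (n / 2 - 1) → List A := fun z =>
    List.ofFn (fun j : Fin n => u (X z.1 - z.2.val + j.val))
  have hφ : Function.Injective φ := by
    rintro ⟨i, t⟩ ⟨i', t'⟩ h2
    have h3 : ∀ r, r < n → u (X i - t.val + r) = u (X i' - t'.val + r) := by
      intro r hr
      have h4 := List.ofFn_injective h2
      exact congrFun h4 ⟨r, hr⟩
    have ht := t.2
    have ht' := t'.2
    obtain ⟨g1, g2, g3, g4⟩ := hg i
    obtain ⟨g1', g2', g3', g4'⟩ := hg i'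
    have a1 := hl i
    have a2 := hn i
    have a3 := hY i
    have b1 := hl i'
    have b2 := hn i'
    have b3 := hY i'
    -- transport the gap
    set sh := X i' - t'.val with hsh
    have hgap : Gap u F (sh + t.val) (sh + (Y i - (X i - t.val))) := by
      have e1 : u (sh + t.val) = u (X i) := by
        rw [← h3 t.val (by omega)]
        congr 1
        omega
      have e2 : u (sh + (Y i - (X i - t.val))) = u (Y i) := by
        rw [← h3 (Y i - (X i - t.val)) (by omega)]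
        congr 1
        omega
      refine ⟨by omega, by rw [e1]; exact g2, by rw [e2]; exact g3, ?_⟩
      intro z hz1 hz2
      have e3 : u z = u (X i - t.val + (z - sh)) := by
        rw [h3 (z - sh) (by omega)]
        congr 1
        omega
      rw [e3]
      exact g4 _ (by omega) (by omega)
    have key : sh + t.val = X i' ∧ sh + (Y i - (X i - t.val)) = Y i' := by
      rcases lt_trichotomy (sh + t.val) (X i') with h5 | h5 | h5
      · exfalso
        have h6 : sh + (Y i - (X i - t.val)) ≤ X i' := by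
          by_contra hc
          exact hgap.2.2.2 (X i') h5 (by omega) g2'
        have := h1 _ _ _ _ hgap (hg i') (by omega) b1 h6
        omega
      · refine ⟨h5, ?_⟩
        rcases lt_trichotomy (sh + (Y i - (X i - t.val))) (Y i') with h6 | h6 | h6
        · exfalso
          exact g4' _ (by omega) h6 hgap.2.2.1
        · exact h6
        · exfalso
          exact hgap.2.2.2 _ (by omega) h6 g3'
      · exfalso
        have h6 : Y i' ≤ sh + t.val := by
          by_contra hc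
          exact g4' _ h5 (by omega) hgap.2.1
        have := h1 _ _ _ _ (hg i') hgap b1 (by omega) h6
        omega
    have hii : i = i' := hinj i i' (by omega)
    subst hii
    have htt : t = t' := by
      apply Fin.ext
      omega
    rw [htt]
  have h4 : (Set.range φ).ncard = K * (n / 2 - 1) := by
    rw [← Set.image_univ, Set.ncard_image_of_injective _ hφ, Set.ncard_univ, Nat.card_prod,
      Nat.card_eq_fintype_card, Nat.card_eq_fintype_card, Fintype.card_fin, Fintype.card_fin]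
  rw [← h4]
  refine Set.ncard_le_ncard ?_ hfin
  rintro _ ⟨z, rfl⟩
  exact ⟨_, rfl⟩

end Pool.Agent.T2h96.FC.UNB
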