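import Pool.Agent.T2h96.FC.UNB.U1
import Pool.Agent.T2h96.FC.UNB.U2

/-!
# Task UNB, part 3: growth of the letters
-/

set_option autoImplicit false
set_option linter.all false

open Filter Asymptotics

namespace Pool.Agent.T2h96.FC.UNB

variable {k : ℕ} {σ : Fin k → List (Fin k)}

theorem sum_map_count (w : List (Fin k)) (f : Fin k → ℕ) :
    (w.map f).sum = ∑ c, w.count c * f c := by
  induction w with
  | nil => simp
  | cons b w ih =>
    rw [List.map_cons, List.sum_cons, ih]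
    simp only [List.count_cons, add_mul, Finset.sum_add_distrib]
    rw [add_comm]
    congr 1
    simp

theorem G_eq (σ : Fin k → List (Fin k)) (j : ℕ) (b : Fin k) :
    G (fun b c => (σ b).count c) (fun _ => 1) j b = L σ j b := by
  induction j generalizing b with
  | zero => rfl
  | succ j ih =>
    rw [L_succ, sum_map_count]
    show ∑ c, (σ b).count c * G (fun b c => (σ b).count c) (fun _ => 1) j c = _
    exact Finset.sum_congr rfl fun c _ => by rw [ih]

/-- the comparison function -/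
noncomputable def gg (θ : ℝ) (e : ℕ) (j : ℕ) : ℝ := ((j : ℝ) + 1) ^ e * θ ^ j

theorem gg_pos {θ : ℝ} (hθ : 1 < θ) (e j : ℕ) : 0 < gg θ e j := by
  unfold gg; positivity

theorem types (hG : S_GROW) (hg : ∀ b, Tendsto (fun m => L σ m b) atTop atTop) (b : Fin k) :
    ∃ (θ : ℝ) (e : ℕ) (c C : ℝ), 1 < θ ∧ 0 < c ∧ 0 < C ∧ ∀ j : ℕ, c * gg θ e j ≤ L σ j b ∧
      (L σ j b : ℝ) ≤ C * gg θ e j := by
  obtain ⟨θ, e, c, C, h1, h2, h3, h4⟩ := hG (Fin k) (fun b c => (σ b).count c) (fun _ => 1)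
    (fun _ => Nat.one_pos) (fun b => by
      have : (fun k_1 => G (fun b c => (σ b).count c) (fun _ => 1) k_1 b) =
        fun j => L σ j b := funext fun j => G_eq σ j b
      rw [this]; exact hg b) b
  refine ⟨θ, e, c, C, h1, h2, h3, fun j => ?_⟩
  have h5 := h4 j
  rw [G_eq] at h5
  unfold gg
  rw [← mul_assoc, ← mul_assoc]
  exact h5

theorem isBigO_of_le {f g : ℕ → ℝ} {C : ℝ} (hf : ∀ j, 0 ≤ f j) (hg : ∀ j, 0 ≤ g j)
    (h : ∀ j, f j ≤ C * g j) : f =O[atTop] g := by
  refine IsBigO.of_bound C (Eventually.of_forall fun j => ?_)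
  rw [Real.norm_of_nonneg (hf j), Real.norm_of_nonneg (hg j)]
  exact h j

theorem little {θ θ' : ℝ} (h1 : 1 < θ) (h1' : 1 < θ') {e e' : ℕ}
    (h : θ' < θ ∨ (θ' = θ ∧ e' < e)) : gg θ' e' =o[atTop] gg θ e := by
  have hne : ∀ j, gg θ e j ≠ 0 := fun j => (gg_pos h1 e j).ne'
  rw [isLittleO_iff_tendsto fun j hj => absurd hj (hne j)]
  rcases h with h | ⟨rfl, h⟩
  · have hr0 : 0 < θ' / θ := by positivity
    have hr1 : θ' / θ < 1 := (div_lt_one (by linarith)).2 h
    have T := tendsto_pow_const_mul_const_pow_of_lt_one e' hr0.le hr1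
    have T1 := (T.comp (tendsto_add_atTop_nat 1)).const_mul (θ' / θ)⁻¹
    rw [mul_zero] at T1
    refine squeeze_zero (fun j => (div_nonneg (gg_pos h1' _ _).le (gg_pos h1 _ _).le)) ?_ T1
    intro j
    rw [div_le_iff₀ (gg_pos h1 e j)]
    unfold gg
    simp only [Function.comp_apply]
    have e1 : (θ' / θ)⁻¹ * (((j + 1 : ℕ) : ℝ) ^ e' * (θ' / θ) ^ (j + 1)) *
        (((j : ℝ) + 1) ^ e * θ ^ j) = ((j : ℝ) + 1) ^ e' * θ' ^ j * ((j : ℝ) + 1) ^ e := by
      have h3 : θ ≠ 0 := by positivity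
      have h4 : θ' ≠ 0 := by positivity
      push_cast
      rw [pow_succ, div_pow]
      field_simp
    rw [e1]
    have h5 : (1 : ℝ) ≤ ((j : ℝ) + 1) ^ e := one_le_pow₀ (by
      have : (0 : ℝ) ≤ j := Nat.cast_nonneg j
      linarith)
    have h6 : 0 ≤ ((j : ℝ) + 1) ^ e' * θ' ^ j := by positivity
    nlinarith
  · have T : Tendsto (fun j : ℕ => 1 / ((j : ℝ) + 1)) atTop (nhds 0) :=
      tendsto_one_div_add_atTop_nhds_zero_nat
    refine squeeze_zero (fun j => (div_nonneg (gg_pos h1' _ _).le (gg_pos h1 _ _).le)) ?_ T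
    intro j
    rw [div_le_iff₀ (gg_pos h1 e j)]
    unfold gg
    have hj : (0 : ℝ) ≤ j := Nat.cast_nonneg j
    have h3 : ((j : ℝ) + 1) ^ e' * ((j : ℝ) + 1) ≤ ((j : ℝ) + 1) ^ e := by
      rw [← pow_succ]
      exact pow_le_pow_right₀ (by linarith) h
    have h4 : 0 < θ' ^ j := by positivity
    rw [one_div, ← mul_assoc]
    refine mul_le_mul_of_nonneg_right ?_ h4.le
    rw [inv_mul_eq_div, le_div_iff₀ (by linarith)]
    exact h3

/-- the fast letters -/
def Fast (σ : Fin k → List (Fin k)) (a b : Fin k) : Prop :=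
  (fun j => (L σ j a : ℝ)) =O[atTop] fun j => (L σ j b : ℝ)

theorem slow_little (hG : S_GROW) (hg : ∀ b, Tendsto (fun m => L σ m b) atTop atTop) {a b : Fin k}
    (hb : ¬ Fast σ a b) : (fun j => (L σ j b : ℝ)) =o[atTop] fun j => (L σ j a : ℝ) := by
  obtain ⟨θ, e, c, C, h1, h2, h3, h4⟩ := types hG hg a
  obtain ⟨θ', e', c', C', h1', h2', h3', h4'⟩ := types hG hg b
  have hL : ∀ (b : Fin k) (j : ℕ), (0 : ℝ) ≤ L σ j b := fun b j => Nat.cast_nonneg _
  have b1 : (fun j => (L σ j b : ℝ)) =O[atTop] gg θ' e' :=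
    isBigO_of_le (hL b) (fun j => (gg_pos h1' _ _).le) fun j => (h4' j).2
  have b2 : gg θ' e' =O[atTop] fun j => (L σ j b : ℝ) := by
    refine isBigO_of_le (C := c'⁻¹) (fun j => (gg_pos h1' _ _).le) (hL b) fun j => ?_
    rw [← div_eq_inv_mul, le_div_iff₀ h2', mul_comm]
    exact (h4' j).1
  have a1 : (fun j => (L σ j a : ℝ)) =O[atTop] gg θ e :=
    isBigO_of_le (hL a) (fun j => (gg_pos h1 _ _).le) fun j => (h4 j).2
  have a2 : gg θ e =O[atTop] fun j => (L σ j a : ℝ) := by
    refine isBigO_of_le (C := c⁻¹) (fun j => (gg_pos h1 _ _).le) (hL a) fun j => ?_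
    rw [← div_eq_inv_mul, le_div_iff₀ h2, mul_comm]
    exact (h4 j).1
  by_cases hlt : θ' < θ ∨ (θ' = θ ∧ e' < e)
  · exact (b1.trans_isLittleO (little h1 h1' hlt)).trans_isBigO a2
  · exfalso
    apply hb
    push Not at hlt
    have key : gg θ e =O[atTop] gg θ' e' := by
      rcases lt_or_eq_of_le hlt.1 with h5 | h5
      · exact (little h1' h1 (Or.inl h5)).isBigO
      · rcases lt_or_eq_of_le (hlt.2 h5.symm) with h6 | h6
        · exact (little h1' h1 (Or.inr ⟨h5, h6⟩)).isBigO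
        · rw [h5, h6]
    exact (a1.trans key).trans b2

theorem sum_bigO (hG : S_GROW) (hg : ∀ b, Tendsto (fun m => L σ m b) atTop atTop) (a : Fin k) :
    (fun j => ∑ i ∈ Finset.range j, (L σ i a : ℝ)) =O[atTop] fun j => (L σ j a : ℝ) := by
  obtain ⟨θ, e, c, C, h1, h2, h3, h4⟩ := types hG hg a
  refine isBigO_of_le (C := C / (θ - 1) / c) (fun j => Finset.sum_nonneg fun i _ => Nat.cast_nonneg _)
    (fun j => Nat.cast_nonneg _) fun j => ?_
  have h5 : ∑ i ∈ Finset.range j, (L σ i a : ℝ) ≤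
      ∑ i ∈ Finset.range j, C * (((j : ℝ) + 1) ^ e * θ ^ i) := by
    refine Finset.sum_le_sum fun i hi => (h4 i).2.trans ?_
    refine mul_le_mul_of_nonneg_left ?_ h3.le
    unfold gg
    refine mul_le_mul_of_nonneg_right ?_ (by positivity)
    refine pow_le_pow_left₀ (by positivity) ?_ e
    have : (i : ℝ) ≤ j := by exact_mod_cast (Finset.mem_range.1 hi).le
    linarith
  have h6 : ∑ i ∈ Finset.range j, C * (((j : ℝ) + 1) ^ e * θ ^ i) =
      C * (((j : ℝ) + 1) ^ e * ((θ ^ j - 1) / (θ - 1))) := by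
    rw [← Finset.mul_sum, ← Finset.mul_sum, geom_sum_eq h1.ne']
  rw [h6] at h5
  refine h5.trans ?_
  have h7 := (h4 j).1
  have hθ : 0 < θ - 1 := by linarith
  have h8 : C * (((j : ℝ) + 1) ^ e * ((θ ^ j - 1) / (θ - 1))) ≤ C / (θ - 1) * gg θ e j := by
    unfold gg
    have e1 : C * (((j : ℝ) + 1) ^ e * ((θ ^ j - 1) / (θ - 1))) =
      C / (θ - 1) * (((j : ℝ) + 1) ^ e * (θ ^ j - 1)) := by
      field_simp
    rw [e1]
    refine mul_le_mul_of_nonneg_left ?_ (by positivity)
    refine mul_le_mul_of_nonneg_left (by linarith) (by positivity)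
  refine h8.trans ?_
  have e2 : C / (θ - 1) / c * (L σ j a : ℝ) = C / (θ - 1) * (L σ j a / c) := by
    field_simp
  rw [e2]
  refine mul_le_mul_of_nonneg_left ?_ (by positivity)
  rw [le_div_iff₀ h2, mul_comm]
  exact h7

theorem one_little (hg : ∀ b, Tendsto (fun m => L σ m b) atTop atTop) (a : Fin k) (C : ℝ) :
    (fun _ : ℕ => C) =o[atTop] fun j => (L σ j a : ℝ) := by
  rw [isLittleO_const_left]
  right
  have h1 : Tendsto (fun j => (L σ j a : ℝ)) atTop atTop :=
    tendsto_natCast_atTop_atTop.comp (hg a)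
  exact tendsto_norm_atTop_atTop.comp h1

theorem sum_tendsto (hne : ∀ b, σ b ≠ []) (a : Fin k) :
    Tendsto (fun n => ∑ i ∈ Finset.range n, (L σ i a : ℝ)) atTop atTop := by
  refine tendsto_atTop_mono (fun n => ?_) tendsto_natCast_atTop_atTop
  have h1 : ∑ i ∈ Finset.range n, (1 : ℝ) ≤ ∑ i ∈ Finset.range n, (L σ i a : ℝ) :=
    Finset.sum_le_sum fun i _ => by
      have := L_pos σ hne i a
      exact_mod_cast this
  simpa using h1

theorem self_false (hne : ∀ b, σ b ≠ []) {a : Fin k}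
    (h : (fun j => (L σ j a : ℝ)) =o[atTop] fun j => (L σ j a : ℝ)) : False := by
  rw [isLittleO_iff] at h
  obtain ⟨j, hj⟩ := (h (c := 1 / 2) (by norm_num)).exists
  have h1 : (0 : ℝ) < L σ j a := by exact_mod_cast L_pos σ hne j a
  rw [Real.norm_of_nonneg h1.le] at hj
  linarith

open Classical in
/-- the bound for the slow letters -/
noncomputable def sl (σ : Fin k → List (Fin k)) (a : Fin k) (j : ℕ) : ℕ :=
  ∑ b, if Fast σ a b then 0 else L σ j b

theorem le_sl {a b : Fin k} (hb : ¬ Fast σ a b) (j : ℕ) : L σ j b ≤ sl σ a j := by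
  classical
  unfold sl
  have h := Finset.single_le_sum (f := fun b => if Fast σ a b then 0 else L σ j b)
    (fun _ _ => Nat.zero_le _) (Finset.mem_univ b)
  simp only [if_neg hb] at h
  exact h

theorem sl_little (hG : S_GROW) (hg : ∀ b, Tendsto (fun m => L σ m b) atTop atTop) (a : Fin k) :
    (fun j => (sl σ a j : ℝ)) =o[atTop] fun j => (L σ j a : ℝ) := by
  classical
  have h1 : (fun j => (sl σ a j : ℝ)) =
      fun j => ∑ b, if Fast σ a b then (0 : ℝ) else (L σ j b : ℝ) := by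
    ext j
    unfold sl
    push_cast
    rfl
  rw [h1]
  have h2 : ∀ b ∈ (Finset.univ : Finset (Fin k)),
      (fun j => if Fast σ a b then (0 : ℝ) else (L σ j b : ℝ)) =o[atTop]
        fun j => (L σ j a : ℝ) := by
    intro b _
    by_cases hb : Fast σ a b
    · simp only [if_pos hb]
      exact isLittleO_zero _ _
    · simp only [if_neg hb]
      exact slow_little hG hg hb
  refine (IsLittleO.sum h2).congr_left fun j => ?_
  rw [Finset.sum_apply]

theorem lam_little (hG : S_GROW) (hg : ∀ b, Tendsto (fun m => L σ m b) atTop atTop) (a : Fin k)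
    (m : ℕ) : (fun j => (lam m (sl σ a) j : ℝ)) =o[atTop] fun j => (L σ j a : ℝ) := by
  have hne := ne_nil σ hg
  have h1 : (fun j => (lam m (sl σ a) j : ℝ)) =
      fun j => ∑ i ∈ Finset.range j, (m : ℝ) * (sl σ a i : ℝ) := by
    ext j
    unfold lam
    push_cast
    rfl
  rw [h1]
  have h2 : (fun i => (m : ℝ) * (sl σ a i : ℝ)) =o[atTop] fun j => (L σ j a : ℝ) :=
    (sl_little hG hg a).const_mul_left _
  exact (h2.sum_range (fun j => Nat.cast_nonneg _) (sum_tendsto hne a)).trans_isBigO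
    (sum_bigO hG hg a)

/-- the constant for the fast letters -/
theorem fast_const (hne : ∀ b, σ b ≠ []) (a : Fin k) : ∃ C : ℕ, 0 < C ∧ ∀ b, Fast σ a b → ∀ j,
    L σ j a ≤ C * L σ j b := by
  classical
  have h1 : ∀ b : Fin k, ∃ C : ℕ, 0 < C ∧ (Fast σ a b → ∀ j, L σ j a ≤ C * L σ j b) := by
    intro b
    by_cases hb : Fast σ a b
    · obtain ⟨C, hC, h2⟩ := bound_of_isBigO_nat_atTop hb
      refine ⟨⌈C⌉₊, Nat.ceil_pos.2 hC, fun _ j => ?_⟩
      have hpos := L_pos σ hne j b
      have h3 := h2 (x := j) (by exact_mod_cast hpos.ne')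
      rw [Real.norm_of_nonneg (Nat.cast_nonneg _), Real.norm_of_nonneg (Nat.cast_nonneg _)] at h3
      have h4 : (L σ j a : ℝ) ≤ (⌈C⌉₊ : ℝ) * L σ j b :=
        h3.trans (mul_le_mul_of_nonneg_right (Nat.le_ceil C) (Nat.cast_nonneg _))
      exact_mod_cast h4
    · exact ⟨1, Nat.one_pos, fun h => absurd h hb⟩
  choose C hC0 hC using h1
  refine ⟨∑ b, C b, ?_, fun b hb j => (hC b hb j).trans ?_⟩
  · have := Finset.single_le_sum (f := C) (fun _ _ => Nat.zero_le _) (Finset.mem_univ a)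
    exact lt_of_lt_of_le (hC0 a) this
  · exact Nat.mul_le_mul_right _ (Finset.single_le_sum (f := C) (fun _ _ => Nat.zero_le _)
      (Finset.mem_univ b))

/-- images of slow letters are slow -/
theorem slow_image {m : ℕ} (hm : ∀ b, (σ b).length ≤ m) {a b c : Fin k} (hb : ¬ Fast σ a b)
    (hc : c ∈ σ b) : ¬ Fast σ a c := by
  intro h
  apply hb
  refine IsBigO.trans h (isBigO_of_le (C := m) (fun j => Nat.cast_nonneg _)
    (fun j => Nat.cast_nonneg _) fun j => ?_)
  have h1 := (L_le_of_mem σ hc j).trans (L_le_mul σ hm j b)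
  exact_mod_cast h1

/-- images of fast letters contain fast letters -/
theorem fast_image (hG : S_GROW) (hg : ∀ b, Tendsto (fun m => L σ m b) atTop atTop) {a b : Fin k}
    (hb : Fast σ a b) : ∃ c ∈ σ b, Fast σ a c := by
  have hne := ne_nil σ hg
  by_contra hcon
  push Not at hcon
  apply self_false hne (a := a)
  have h1 : ∀ w : List (Fin k), (∀ c ∈ w, ¬ Fast σ a c) →
      (fun j => (((w.map (L σ j)).sum : ℕ) : ℝ)) =o[atTop] fun j => (L σ j a : ℝ) := by
    intro w
    induction w with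
    | nil =>
      intro _
      have : (fun j => ((((([] : List (Fin k)).map (L σ j)).sum : ℕ)) : ℝ)) = fun _ => (0 : ℝ) := by
        ext j; simp
      rw [this]
      exact isLittleO_zero _ _
    | cons c w ih =>
      intro hw
      have h2 := slow_little hG hg (hw c List.mem_cons_self)
      have h3 := ih fun d hd => hw d (List.mem_cons_of_mem _ hd)
      have h4 := h2.add h3
      refine h4.congr_left fun j => ?_
      simp
  have h2 := h1 (σ b) hcon
  have h3 : (fun j => (L σ j b : ℝ)) =O[atTop] fun j => (((σ b).map (L σ j)).sum : ℝ) := by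
    refine isBigO_of_le (C := 1) (fun j => Nat.cast_nonneg _) (fun j => Nat.cast_nonneg _)
      fun j => ?_
    have := L_le_succ σ hne j b
    rw [L_succ] at this
    rw [one_mul]
    exact_mod_cast this
  have hb' : (fun j => (L σ j a : ℝ)) =O[atTop] fun j => (L σ j b : ℝ) := hb
  exact (hb'.trans h3).trans_isLittleO h2

theorem fast_self (σ : Fin k → List (Fin k)) (a : Fin k) : Fast σ a a := isBigO_refl _ _

end Pool.Agent.T2h96.FC.UNB
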